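import Pool.Agent.Helper32.PD.Defs

/-! PD-12a: the anticomplete system from a common set (project MP_34cda4_co, PART 1). -/

set_option autoImplicit false

namespace Pool.Agent.Helper32.PD

open Finset
open scoped Classical

/-- common `X` (case beta) -/
theorem exists_sys2_common (M : ℕ) (C : ℝ) (hC : 1 ≤ C) (ξ : ℝ) (hξ : 0 < ξ) (hξ' : ξ ≤ 1) :
    ∃ δ₀ : ℝ, 0 < δ₀ ∧
    ∀ (V : Type) [Fintype V] (F : SimpleGraph V) (side : V → Bool) (n : ℕ) (δ c : ℝ), 1 ≤ n →
      0 < c → c ≤ δ → δ ≤ δ₀ → Host F side n δ c →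
      ∀ (I S : Fin M → Finset V) (b : Bool) (X : Finset V), Hubs F I S (fun _ x => x) →
        (∀ l l', l ≠ l' → ∀ x ∈ S l, ∀ y ∈ S l', ¬ F.Adj x y) →
        (∀ b', cnt side b' (univ.biUnion fun l => (I l ∪ S l) ∪ nbh F (I l ∪ S l)) ≤ n / 4) →
        (∀ x ∈ X, side x = b ∧ (∀ l, ∀ y ∈ I l, x ≠ y ∧ ¬ F.Adj x y) ∧
          ∀ l, ∃ s ∈ S l, F.Adj x s) → 2 * ξ * n ≤ X.card →
        ∃ (f : Fin M → V → V) (X' O : Finset V), Sys2 F I S f X' O ξ (ξ / C) (ξ / C) n := by
  have hC0 : 0 < C := by linarith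
  have hθ : 0 < ξ / C := by positivity
  refine ⟨ξ / C / (2 * M + 2), by positivity, ?_⟩
  intro V _ F side n δ c hn hc hcδ hδ H I S b X hHubs hSS hfoot hX hXc
  have hn' : (0 : ℝ) < n := by exact_mod_cast hn
  have hδ1 : δ * (2 * M + 2) ≤ ξ / C := by
    rw [le_div_iff₀ (by positivity)] at hδ
    exact hδ
  have hδ0 : 0 ≤ δ := by linarith
  have hM0 : (0 : ℝ) ≤ M := Nat.cast_nonneg M
  have hδθ : δ ≤ ξ / C := by nlinarith
  -- the chosen leaf
  let f : Fin M → V → V := fun l x => if h : ∃ s ∈ S l, F.Adj x s then h.choose else x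
  have hf : ∀ x ∈ X, ∀ l, f l x ∈ S l ∧ F.Adj x (f l x) := by
    intro x hx l
    have h := (hX x hx).2.2 l
    have : f l x = h.choose := dif_pos h
    rw [this]
    exact h.choose_spec
  -- degrees
  have hdeg : ∀ (v : V) (b' : Bool) (Z : Finset V), (∀ z ∈ Z, side z = b') →
      ((Z.filter fun x => F.Adj v x).card : ℝ) ≤ δ * n := by
    intro v b' Z hZ
    refine le_trans ?_ (H.deg v b')
    unfold cnt
    exact_mod_cast card_le_card (by
      intro z hz
      simp only [mem_filter, mem_univ, true_and] at hz ⊢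
      exact ⟨hz.2, hZ z hz.1⟩)
  have hXb : ∀ x ∈ X, side x = b := fun x hx => (hX x hx).1
  have hXn : (X.card : ℝ) ≤ n := by
    have h1 : X ⊆ univ.filter fun v => side v = b := by
      intro x hx
      simp [hXb x hx]
    have h2 := card_le_card h1
    rw [H.card b] at h2
    exact_mod_cast h2
  have hξ2 : ξ ≤ 1 / 2 := by
    by_contra hcon
    push Not at hcon
    nlinarith
  -- the cleaned set
  let X' : Finset V := X.filter fun x => ∀ l : Fin M,
    ((X.filter fun y => F.Adj x (f l y)).card : ℝ) ≤ ξ / C * n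
  have hX'X : X' ⊆ X := filter_subset _ _
  have hbad : ∀ l : Fin M, ((X.filter fun x =>
      ξ / C * n < ((X.filter fun y => F.Adj x (f l y)).card : ℝ)).card : ℝ) * (ξ / C * n) ≤
        X.card * (δ * n) := by
    intro l
    have h1 : ((X.filter fun x =>
        ξ / C * n < ((X.filter fun y => F.Adj x (f l y)).card : ℝ)).card : ℝ) * (ξ / C * n) ≤
          ∑ x ∈ X, ((X.filter fun y => F.Adj x (f l y)).card : ℝ) := by
      rw [← nsmul_eq_mul]
      refine le_trans (card_nsmul_le_sum _ _ _ ?_) (sum_le_sum_of_subset_of_nonneg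
        (filter_subset _ X) (fun _ _ _ => Nat.cast_nonneg _))
      intro x hx
      exact (mem_filter.1 hx).2.le
    have h2 : ∑ x ∈ X, ((X.filter fun y => F.Adj x (f l y)).card : ℝ) =
        ∑ y ∈ X, ((X.filter fun x => F.Adj (f l y) x).card : ℝ) := by
      simp only [card_filter, Nat.cast_sum]
      rw [sum_comm]
      refine sum_congr rfl fun y _ => sum_congr rfl fun x _ => ?_
      simp only [F.adj_comm]
    have h3 : ∑ y ∈ X, ((X.filter fun x => F.Adj (f l y) x).card : ℝ) ≤
        ∑ _y ∈ X, δ * n := sum_le_sum fun y _ => hdeg _ b X hXb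
    rw [sum_const, nsmul_eq_mul] at h3
    linarith
  have hX'c : (X.card : ℝ) / 2 ≤ X'.card := by
    have h1 : X \ X' ⊆ (univ : Finset (Fin M)).biUnion fun l => X.filter fun x =>
        ξ / C * n < ((X.filter fun y => F.Adj x (f l y)).card : ℝ) := by
      intro x hx
      rw [mem_sdiff, mem_filter] at hx
      have h2 : ¬ ∀ l : Fin M, ((X.filter fun y => F.Adj x (f l y)).card : ℝ) ≤ ξ / C * n :=
        fun h => hx.2 ⟨hx.1, h⟩
      push Not at h2
      obtain ⟨l, hl⟩ := h2
      exact mem_biUnion.2 ⟨l, mem_univ _, mem_filter.2 ⟨hx.1, hl⟩⟩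
    have h2 : ((X \ X').card : ℝ) ≤ ∑ l : Fin M, ((X.filter fun x =>
        ξ / C * n < ((X.filter fun y => F.Adj x (f l y)).card : ℝ)).card : ℝ) := by
      exact_mod_cast le_trans (card_le_card h1) card_biUnion_le
    have h3 : (∑ l : Fin M, ((X.filter fun x =>
        ξ / C * n < ((X.filter fun y => F.Adj x (f l y)).card : ℝ)).card : ℝ)) * (ξ / C * n) ≤
          M * (X.card * (δ * n)) := by
      rw [sum_mul]
      refine le_trans (sum_le_sum fun l _ => hbad l) ?_
      rw [sum_const, nsmul_eq_mul, card_univ, Fintype.card_fin]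
    have h4 : ((X \ X').card : ℝ) * (ξ / C * n) ≤ M * (X.card * (δ * n)) :=
      le_trans (mul_le_mul_of_nonneg_right h2 (by positivity)) h3
    have h5 : (X \ X').card + X'.card = X.card := card_sdiff_add_card_eq_card hX'X
    have h6 : ((X \ X').card : ℝ) + X'.card = X.card := by exact_mod_cast h5
    have h7 : M * (X.card * (δ * n)) ≤ (X.card : ℝ) / 2 * (ξ / C * n) := by
      have : δ * M ≤ ξ / C / 2 := by nlinarith
      have hXX : (0 : ℝ) ≤ X.card * n := by positivity
      nlinarith [mul_le_mul_of_nonneg_left this hXX]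
    have h8 : ((X \ X').card : ℝ) ≤ (X.card : ℝ) / 2 :=
      le_of_mul_le_mul_right (le_trans h4 h7) (by positivity)
    linarith
  -- the third party
  let E : Finset V := univ.biUnion fun l => (I l ∪ S l) ∪ nbh F (I l ∪ S l)
  let O : Finset V := univ.filter fun v => side v = !b ∧ v ∉ E
  have hOb : ∀ o ∈ O, side o = !b := fun o ho => (mem_filter.1 ho).2.1
  have hOE : ∀ o ∈ O, o ∉ E := fun o ho => (mem_filter.1 ho).2.2
  have hO1 : ∀ o ∈ O, ∀ l, ∀ y ∈ I l ∪ S l, o ≠ y ∧ ¬ F.Adj o y := by
    intro o ho l y hy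
    have hE := hOE o ho
    constructor
    · rintro rfl
      exact hE (mem_biUnion.2 ⟨l, mem_univ _, mem_union_left _ hy⟩)
    · intro ha
      refine hE (mem_biUnion.2 ⟨l, mem_univ _, mem_union_right _ ?_⟩)
      unfold nbh
      exact mem_filter.2 ⟨mem_univ _, y, hy, ha.symm⟩
  have hOc : (n : ℝ) * (3 / 4) ≤ O.card := by
    have h1 : (univ.filter fun v => side v = !b) ⊆ O ∪ (E.filter fun v => side v = !b) := by
      intro v hv
      rw [mem_filter] at hv
      by_cases hvE : v ∈ E
      · exact mem_union_right _ (mem_filter.2 ⟨hvE, hv.2⟩)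
      · exact mem_union_left _ (mem_filter.2 ⟨mem_univ _, hv.2, hvE⟩)
    have h2 := le_trans (card_le_card h1) (card_union_le _ _)
    rw [H.card (!b)] at h2
    have h3 : (n : ℝ) ≤ O.card + (E.filter fun v => side v = !b).card := by exact_mod_cast h2
    have h4 : ((E.filter fun v => side v = !b).card : ℝ) ≤ n / 4 := hfoot (!b)
    linarith
  refine ⟨f, X', O, ?_⟩
  exact
    { conn := hHubs.conn
      hub_anti := hHubs.hub_anti
      leaf_not := fun l t ht => hHubs.leaf_not l t ht
      leaf_adj := fun l t ht => hHubs.leaf_adj l t ht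
      leaf_anti := fun l l' hl t ht y hy => hHubs.leaf_anti l l' hl t ht y hy
      leaf_leaf := by
        intro l l' hl t ht t' ht'
        refine ⟨?_, hSS l l' hl t ht t' ht'⟩
        rintro rfl
        obtain ⟨y, hy, hty⟩ := hHubs.leaf_adj l t ht
        exact (hHubs.leaf_anti l' l (Ne.symm hl) t ht' y hy).2 hty
      X_hub := fun x hx l y hy => (hX x (hX'X hx)).2.1 l y hy
      O_hub := fun x hx l y hy => hO1 x hx l y (mem_union_left _ hy)
      O_leaf := fun x hx l t ht => hO1 x hx l t (mem_union_right _ ht)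
      f_mem := fun x hx l => hf x (hX'X hx) l
      sizeX := by linarith
      sizeO := by nlinarith
      degX := fun v => le_trans (hdeg v b X' fun z hz => hXb z (hX'X hz))
        (mul_le_mul_of_nonneg_right hδθ hn'.le)
      degO := fun v => le_trans (hdeg v (!b) O hOb)
        (mul_le_mul_of_nonneg_right hδθ hn'.le)
      good := by
        intro x hx l
        refine le_trans ?_ ((mem_filter.1 hx).2 l)
        exact_mod_cast card_le_card (filter_subset_filter _ hX'X)
      coh := by
        intro X₁ hX₁ O₁ hO₁ h1 h2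
        have hcn : c * n ≤ ξ / C * n := mul_le_mul_of_nonneg_right (le_trans hcδ hδθ) hn'.le
        have hx1 : ∀ x ∈ X₁, side x = b := fun x hx => hXb x (hX'X (hX₁ hx))
        have ho1 : ∀ x ∈ O₁, side x = !b := fun x hx => hOb x (hO₁ hx)
        cases b with
        | true =>
          exact H.dense X₁ O₁ hx1 (by simpa using ho1) (le_trans hcn h1) (le_trans hcn h2)
        | false =>
          obtain ⟨o, ho, x, hx, hox⟩ := H.dense O₁ X₁ (by simpa using ho1) hx1
            (le_trans hcn h2) (le_trans hcn h1)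
          exact ⟨x, hx, o, ho, hox.symm⟩ }

end Pool.Agent.Helper32.PD
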