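import Pool.Agent.Helper32.PD.Defs

/-! PD-12b: the anticomplete system from private sets (project MP_34cda4_co, PART 1). -/

set_option autoImplicit false

namespace Pool.Agent.Helper32.PD

open Finset
open scoped Classical

/-- private `Z` (case alpha), pairwise anticomplete; one hub is sacrificed -/
theorem exists_sys2_private (M : ℕ) (C : ℝ) (hC : 1 ≤ C) (ξ : ℝ) (hξ : 0 < ξ)
    (hξ' : ξ ≤ 1 / 4) : ∃ δ₀ : ℝ, 0 < δ₀ ∧
    ∀ (V : Type) [Fintype V] (F : SimpleGraph V) (side : V → Bool) (n : ℕ) (δ c : ℝ), 1 ≤ n →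
      0 < c → c ≤ δ → δ ≤ δ₀ → Host F side n δ c →
      ∀ (I Z : Fin (M + 1) → Finset V) (b : Bool), Hubs F I Z (fun _ x => x) →
        (∀ l l', l ≠ l' → ∀ x ∈ Z l, ∀ y ∈ Z l', ¬ F.Adj x y) →
        (∀ b', cnt side b' (univ.biUnion fun l => I l ∪ nbh F (I l)) ≤ n / 4) →
        (∀ l, ∀ x ∈ Z l, side x = b) → (∀ l, ξ * n ≤ (Z l).card) →
        ∃ (f : Fin M → V → V) (X : Finset V),
          Sys2 F (fun l => I l.castSucc) (fun l => Z l.castSucc) f X (Z (Fin.last M)) ξ (ξ / C)
            (ξ / C) n := by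
  have hC0 : 0 < C := by linarith
  have hθ : 0 < ξ / C := by positivity
  have hθξ : ξ / C ≤ ξ := div_le_self hξ.le hC
  refine ⟨ξ / C / (4 * M + 4), by positivity, ?_⟩
  intro V _ F side n δ c hn hc hcδ hδ H I Z b hHubs hZZ hfoot hZb hZc
  have hn' : (0 : ℝ) < n := by exact_mod_cast hn
  have hδ1 : δ * (4 * M + 4) ≤ ξ / C := by
    rw [le_div_iff₀ (by positivity)] at hδ
    exact hδ
  have hδ0 : 0 ≤ δ := by linarith
  have hM0 : (0 : ℝ) ≤ M := Nat.cast_nonneg M
  have hδM : 0 ≤ δ * M := by positivity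
  have hδθ : δ ≤ ξ / C := by nlinarith
  have hcM : c * M ≤ 1 / 4 := by nlinarith
  -- degrees
  have hdeg : ∀ (v : V) (b' : Bool) (Z : Finset V), (∀ z ∈ Z, side z = b') →
      ((Z.filter fun x => F.Adj v x).card : ℝ) ≤ δ * n := by
    intro v b' Z hZ
    refine le_trans ?_ (H.deg v b')
    unfold cnt
    exact_mod_cast card_le_card (by
      intro z hz
      simp only [mem_filter, mem_univ, true_and] at hz ⊢
      exact ⟨hz.2, hZ z hz.1⟩)
  -- few vertices see nothing of a leaf set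
  have hfew : ∀ l, ((univ.filter fun v => side v = (!b) ∧ ∀ s ∈ Z l, ¬ F.Adj v s).card : ℝ) <
      c * n := by
    intro l
    by_contra hcon
    push Not at hcon
    have hcZ : c * n ≤ (Z l).card := le_trans
      (mul_le_mul_of_nonneg_right (le_trans hcδ (le_trans hδθ hθξ)) hn'.le) (hZc l)
    have hb1 : ∀ y ∈ univ.filter fun v => side v = (!b) ∧ ∀ s ∈ Z l, ¬ F.Adj v s,
        side y = !b := fun y hy => (mem_filter.1 hy).2.1
    cases b with
    | true =>
      obtain ⟨x, hx, y, hy, hxy⟩ := H.dense (Z l) _ (hZb l) (by simpa using hb1) hcZ hcon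
      exact (mem_filter.1 hy).2.2 x hx hxy.symm
    | false =>
      obtain ⟨x, hx, y, hy, hxy⟩ := H.dense _ (Z l) (by simpa using hb1) (hZb l) hcon hcZ
      exact (mem_filter.1 hx).2.2 y hy hxy
  -- the chosen leaf
  let f : Fin M → V → V := fun l x =>
    if h : ∃ s ∈ Z l.castSucc, F.Adj x s then h.choose else x
  have hf : ∀ (l : Fin M) (x : V), (∃ s ∈ Z l.castSucc, F.Adj x s) →
      f l x ∈ Z l.castSucc ∧ F.Adj x (f l x) := by
    intro l x h
    have : f l x = h.choose := dif_pos h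
    rw [this]
    exact h.choose_spec
  -- the dominated set
  let E : Finset V := univ.biUnion fun l => I l ∪ nbh F (I l)
  let X₀ : Finset V := univ.filter fun v => side v = (!b) ∧ v ∉ E ∧
    ∀ l : Fin M, ∃ s ∈ Z l.castSucc, F.Adj v s
  have hX₀b : ∀ x ∈ X₀, side x = !b := fun x hx => (mem_filter.1 hx).2.1
  have hX₀E : ∀ x ∈ X₀, x ∉ E := fun x hx => (mem_filter.1 hx).2.2.1
  have hX₀f : ∀ x ∈ X₀, ∀ l : Fin M, f l x ∈ Z l.castSucc ∧ F.Adj x (f l x) :=
    fun x hx l => hf l x ((mem_filter.1 hx).2.2.2 l)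
  have hX₀c : (n : ℝ) / 2 ≤ X₀.card := by
    have h1 : (univ.filter fun v => side v = !b) ⊆ X₀ ∪ ((E.filter fun v => side v = !b) ∪
        (univ : Finset (Fin M)).biUnion fun l =>
          univ.filter fun v => side v = (!b) ∧ ∀ s ∈ Z l.castSucc, ¬ F.Adj v s) := by
      intro v hv
      rw [mem_filter] at hv
      by_cases hvE : v ∈ E
      · exact mem_union_right _ (mem_union_left _ (mem_filter.2 ⟨hvE, hv.2⟩))
      by_cases hall : ∀ l : Fin M, ∃ s ∈ Z l.castSucc, F.Adj v s
      · exact mem_union_left _ (mem_filter.2 ⟨mem_univ _, hv.2, hvE, hall⟩)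
      · push Not at hall
        obtain ⟨l, hl⟩ := hall
        exact mem_union_right _ (mem_union_right _
          (mem_biUnion.2 ⟨l, mem_univ _, mem_filter.2 ⟨mem_univ _, hv.2, hl⟩⟩))
    have h2 := le_trans (card_le_card h1) (le_trans (card_union_le _ _)
      (Nat.add_le_add_left (card_union_le _ _) _))
    rw [H.card (!b)] at h2
    have h3 : (n : ℝ) ≤ X₀.card + ((E.filter fun v => side v = !b).card +
        ((univ : Finset (Fin M)).biUnion fun l =>
          univ.filter fun v => side v = (!b) ∧ ∀ s ∈ Z l.castSucc, ¬ F.Adj v s).card) := by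
      exact_mod_cast h2
    have h4 : ((E.filter fun v => side v = !b).card : ℝ) ≤ n / 4 := hfoot (!b)
    have h5 : (((univ : Finset (Fin M)).biUnion fun l =>
          univ.filter fun v => side v = (!b) ∧ ∀ s ∈ Z l.castSucc, ¬ F.Adj v s).card : ℝ) ≤
        ∑ l : Fin M, ((univ.filter fun v => side v = (!b) ∧
          ∀ s ∈ Z l.castSucc, ¬ F.Adj v s).card : ℝ) := by
      exact_mod_cast card_biUnion_le
    have h6 : ∑ l : Fin M, ((univ.filter fun v => side v = (!b) ∧
          ∀ s ∈ Z l.castSucc, ¬ F.Adj v s).card : ℝ) ≤ M * (c * n) := by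
      refine le_trans (sum_le_sum fun l _ => (hfew l.castSucc).le) ?_
      rw [sum_const, nsmul_eq_mul, card_univ, Fintype.card_fin]
    have h7 : M * (c * n) ≤ n / 4 := by nlinarith
    linarith
  -- the cleaned set
  let X : Finset V := X₀.filter fun x => ∀ l : Fin M,
    ((X₀.filter fun y => F.Adj x (f l y)).card : ℝ) ≤ ξ / C * n
  have hXX₀ : X ⊆ X₀ := filter_subset _ _
  have hbad : ∀ l : Fin M, ((X₀.filter fun x =>
      ξ / C * n < ((X₀.filter fun y => F.Adj x (f l y)).card : ℝ)).card : ℝ) * (ξ / C * n) ≤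
        X₀.card * (δ * n) := by
    intro l
    have h1 : ((X₀.filter fun x =>
        ξ / C * n < ((X₀.filter fun y => F.Adj x (f l y)).card : ℝ)).card : ℝ) * (ξ / C * n) ≤
          ∑ x ∈ X₀, ((X₀.filter fun y => F.Adj x (f l y)).card : ℝ) := by
      rw [← nsmul_eq_mul]
      refine le_trans (card_nsmul_le_sum _ _ _ ?_) (sum_le_sum_of_subset_of_nonneg
        (filter_subset _ X₀) (fun _ _ _ => Nat.cast_nonneg _))
      intro x hx
      exact (mem_filter.1 hx).2.le
    have h2 : ∑ x ∈ X₀, ((X₀.filter fun y => F.Adj x (f l y)).card : ℝ) =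
        ∑ y ∈ X₀, ((X₀.filter fun x => F.Adj (f l y) x).card : ℝ) := by
      simp only [card_filter, Nat.cast_sum]
      rw [sum_comm]
      refine sum_congr rfl fun y _ => sum_congr rfl fun x _ => ?_
      simp only [F.adj_comm]
    have h3 : ∑ y ∈ X₀, ((X₀.filter fun x => F.Adj (f l y) x).card : ℝ) ≤
        ∑ _y ∈ X₀, δ * n := sum_le_sum fun y _ => hdeg _ (!b) X₀ hX₀b
    rw [sum_const, nsmul_eq_mul] at h3
    linarith
  have hXc : (X₀.card : ℝ) / 2 ≤ X.card := by
    have h1 : X₀ \ X ⊆ (univ : Finset (Fin M)).biUnion fun l => X₀.filter fun x =>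
        ξ / C * n < ((X₀.filter fun y => F.Adj x (f l y)).card : ℝ) := by
      intro x hx
      have hx1 := (mem_sdiff.1 hx).1
      have hx2 := (mem_sdiff.1 hx).2
      have h2 : ¬ ∀ l : Fin M, ((X₀.filter fun y => F.Adj x (f l y)).card : ℝ) ≤ ξ / C * n :=
        fun h => hx2 (mem_filter.2 ⟨hx1, h⟩)
      push Not at h2
      obtain ⟨l, hl⟩ := h2
      exact mem_biUnion.2 ⟨l, mem_univ _, mem_filter.2 ⟨hx1, hl⟩⟩
    have h2 : ((X₀ \ X).card : ℝ) ≤ ∑ l : Fin M, ((X₀.filter fun x =>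
        ξ / C * n < ((X₀.filter fun y => F.Adj x (f l y)).card : ℝ)).card : ℝ) := by
      exact_mod_cast le_trans (card_le_card h1) card_biUnion_le
    have h3 : (∑ l : Fin M, ((X₀.filter fun x =>
        ξ / C * n < ((X₀.filter fun y => F.Adj x (f l y)).card : ℝ)).card : ℝ)) *
          (ξ / C * n) ≤ M * (X₀.card * (δ * n)) := by
      rw [sum_mul]
      refine le_trans (sum_le_sum fun l _ => hbad l) ?_
      rw [sum_const, nsmul_eq_mul, card_univ, Fintype.card_fin]
    have h4 : ((X₀ \ X).card : ℝ) * (ξ / C * n) ≤ M * (X₀.card * (δ * n)) :=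
      le_trans (mul_le_mul_of_nonneg_right h2 (by positivity)) h3
    have h5 : (X₀ \ X).card + X.card = X₀.card := card_sdiff_add_card_eq_card hXX₀
    have h6 : ((X₀ \ X).card : ℝ) + X.card = X₀.card := by exact_mod_cast h5
    have h7 : M * (X₀.card * (δ * n)) ≤ (X₀.card : ℝ) / 2 * (ξ / C * n) := by
      have : δ * M ≤ ξ / C / 2 := by nlinarith
      have hXX : (0 : ℝ) ≤ X₀.card * n := by positivity
      nlinarith [mul_le_mul_of_nonneg_left this hXX]
    have h8 : ((X₀ \ X).card : ℝ) ≤ (X₀.card : ℝ) / 2 :=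
      le_of_mul_le_mul_right (le_trans h4 h7) (by positivity)
    linarith
  have hEI : ∀ v, v ∉ E → ∀ l, ∀ y ∈ I l, v ≠ y ∧ ¬ F.Adj v y := by
    intro v hE l y hy
    constructor
    · rintro rfl
      exact hE (mem_biUnion.2 ⟨l, mem_univ _, mem_union_left _ hy⟩)
    · intro ha
      refine hE (mem_biUnion.2 ⟨l, mem_univ _, mem_union_right _ ?_⟩)
      unfold nbh
      exact mem_filter.2 ⟨mem_univ _, y, hy, ha.symm⟩
  have hLL : ∀ l l', l ≠ l' → ∀ t ∈ Z l, ∀ t' ∈ Z l', t ≠ t' ∧ ¬ F.Adj t t' := by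
    intro l l' hl t ht t' ht'
    refine ⟨?_, hZZ l l' hl t ht t' ht'⟩
    rintro rfl
    obtain ⟨y, hy, hty⟩ := hHubs.leaf_adj l t ht
    exact (hHubs.leaf_anti l' l (Ne.symm hl) t ht' y hy).2 hty
  have hcs : ∀ l l' : Fin M, l ≠ l' → l.castSucc ≠ l'.castSucc :=
    fun l l' h h' => h (Fin.castSucc_injective M h')
  refine ⟨f, X, ?_⟩
  exact
    { conn := fun l => hHubs.conn l.castSucc
      hub_anti := fun l l' hl => hHubs.hub_anti _ _ (hcs l l' hl)
      leaf_not := fun l t ht => hHubs.leaf_not l.castSucc t ht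
      leaf_adj := fun l t ht => hHubs.leaf_adj l.castSucc t ht
      leaf_anti := fun l l' hl t ht y hy => hHubs.leaf_anti _ _ (hcs l l' hl) t ht y hy
      leaf_leaf := fun l l' hl => hLL _ _ (hcs l l' hl)
      X_hub := fun x hx l y hy => hEI x (hX₀E x (hXX₀ hx)) _ y hy
      O_hub := fun x hx l y hy => hHubs.leaf_anti (Fin.last M) l.castSucc
        (Fin.castSucc_lt_last l).ne' x hx y hy
      O_leaf := fun x hx l t ht => hLL (Fin.last M) l.castSucc
        (Fin.castSucc_lt_last l).ne' x hx t ht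
      f_mem := fun x hx l => hX₀f x (hXX₀ hx) l
      sizeX := by nlinarith
      sizeO := hZc _
      degX := fun v => le_trans (hdeg v (!b) X fun z hz => hX₀b z (hXX₀ hz))
        (mul_le_mul_of_nonneg_right hδθ hn'.le)
      degO := fun v => le_trans (hdeg v b _ (hZb _))
        (mul_le_mul_of_nonneg_right hδθ hn'.le)
      good := by
        intro x hx l
        refine le_trans ?_ ((mem_filter.1 hx).2 l)
        exact_mod_cast card_le_card (filter_subset_filter _ hXX₀)
      coh := by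
        intro X₁ hX₁ O₁ hO₁ h1 h2
        have hcn : c * n ≤ ξ / C * n := mul_le_mul_of_nonneg_right (le_trans hcδ hδθ) hn'.le
        have hx1 : ∀ x ∈ X₁, side x = !b := fun x hx => hX₀b x (hXX₀ (hX₁ hx))
        have ho1 : ∀ x ∈ O₁, side x = b := fun x hx => hZb _ x (hO₁ hx)
        cases b with
        | false =>
          exact H.dense X₁ O₁ (by simpa using hx1) ho1 (le_trans hcn h1) (le_trans hcn h2)
        | true =>
          obtain ⟨o, ho, x, hx, hox⟩ := H.dense O₁ X₁ ho1 (by simpa using hx1)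
            (le_trans hcn h2) (le_trans hcn h1)
          exact ⟨x, hx, o, ho, hox.symm⟩ }

end Pool.Agent.Helper32.PD
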